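import Pool.Agent.X38.NSq

set_option autoImplicit false

/-!
# The error term in the asymptotic formula for the primes `n^2+1`

In every short interval the error term of the formula `P_1(N) ~ C ∫_2^N dt / log t` is at least a constant
times `C log log`, also in arithmetic progressions. It rests on the theorem
`Pool.Agent.H474R2.PG.composite_strings` of the starting library (strings of `c log Y log log Y` consecutive
composite values of an irreducible polynomial in every interval of length `Y`).
-/

namespace Pool.Agent.Results.MP_484c84_nt.ErrorTermOmega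

open Finset

/-- `P q a N` is the number of `1 ≤ n ≤ N`, `n ≡ a` modulo `q`, for which `n^2+1` is prime. -/
def P (q a N : ℕ) : ℕ := ((Icc 1 N).filter (fun n => n ≡ a [MOD q] ∧ (n ^ 2 + 1).Prime)).card

/-- Let `q` and `a^2+1` be coprime (`q = 1` is the case of all `n`). There are `c > 0` and `Y₀` such that for
all constants `C ≥ 0`, all `Y ≥ Y₀` and all integers `x ≥ Y` some integer `N` with `x ≤ N ≤ x + Y` satisfies
`|P q a N - C ∫_2^N dt / log t| ≥ c C (log Y / log x) log log Y`. -/
theorem result (q a : ℕ) (hq : 1 ≤ q) (hqa : Nat.Coprime q (a ^ 2 + 1)) :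
    ∃ c : ℝ, 0 < c ∧ ∃ Y₀ : ℝ, ∀ (C Y : ℝ) (x : ℕ), 0 ≤ C → Y₀ ≤ Y → Y ≤ x →
    ∃ N : ℕ, x ≤ N ∧ (N : ℝ) ≤ x + Y ∧
      c * C * (Real.log Y / Real.log x) * Real.log (Real.log Y) ≤
        |(P q a N : ℝ) - C * ∫ t in (2 : ℝ)..(N : ℝ), 1 / Real.log t| :=
  Pool.Agent.X38.NSq.omega q a hq hqa

end Pool.Agent.Results.MP_484c84_nt.ErrorTermOmega
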