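import Mathlib
import Pool.Agent.X3.LinNum
import Pool.Agent.TH915.UC.PAP

/-!
# Linear complexity of the primes of the form `n^2 + a`

The indicator function of the integers `n` for which `|n^2 + a|` is prime (and every other function
supported on them) satisfies no linear recurrence of a small order over any field on `1, …, N`, if
`|N^2 + a|` is prime: the order is at least `c N / (log N log log N)`.
-/

set_option autoImplicit false

namespace Pool.Agent.Results.MP_484c84_nt.LinearComplexity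

open Filter

/-- `|n^2 + a|` is prime -/
def PrimeValue (a : ℤ) (n : ℕ) : Prop := (((n : ℤ) ^ 2 + a).natAbs).Prime

/-- the number of primes `p ≤ y` with `p ≡ 1` modulo `q` -/
def primesOne (q y : ℕ) : ℕ := ((Finset.Icc 1 y).filter fun p => p.Prime ∧ p ≡ 1 [MOD q]).card

/-- the word `x 1, …, x N` satisfies a linear recurrence of order `L` with coefficients in `F` -/
def Recurrent {F : Type} [Field F] (x : ℕ → F) (N L : ℕ) : Prop :=
  ∃ c : Fin L → F, ∀ n, 1 ≤ n → n + L ≤ N → x (n + L) = ∑ i : Fin L, c i * x (n + i)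

open Classical in
/-- the indicator function of the integers `n` such that `|n^2 + a|` is prime, with values in `F` -/
noncomputable def ind (F : Type) [Field F] (a : ℤ) (n : ℕ) : F := if PrimeValue a n then 1 else 0

lemma root {a : ℤ} (ha : a ≠ 0) {p : ℕ} (hp : p.Prime) (hp1 : p ≡ 1 [MOD 4 * a.natAbs]) :
    4 * a.natAbs < p ∧ ∃ u : ℕ, u < p ∧ (p : ℤ) ∣ (u : ℤ) ^ 2 + a := by
  have ha1 : 1 ≤ a.natAbs := Int.natAbs_pos.2 ha
  have hmod : p % (4 * a.natAbs) = 1 := by
    have h1 : p % (4 * a.natAbs) = 1 % (4 * a.natAbs) := hp1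
    rwa [Nat.mod_eq_of_lt (show 1 < 4 * a.natAbs by omega)] at h1
  have hlt : 4 * a.natAbs < p := by
    by_contra hcon
    push Not at hcon
    rcases Nat.lt_or_ge p (4 * a.natAbs) with h | h
    · rw [Nat.mod_eq_of_lt h] at hmod
      exact hp.one_lt.ne' hmod
    · have : p = 4 * a.natAbs := by omega
      rw [← this, Nat.mod_self] at hmod
      omega
  refine ⟨hlt, ?_⟩
  have hodd : Odd p := hp.odd_of_ne_two (by omega)
  haveI : Fact p.Prime := ⟨hp⟩
  have hJ : jacobiSym (-a) p = 1 := by
    rw [jacobiSym.mod_right (-a) hodd, Int.natAbs_neg, hmod]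
    exact jacobiSym.one_right _
  obtain ⟨r, hr⟩ := ZMod.isSquare_of_jacobiSym_eq_one hJ
  refine ⟨r.val, ZMod.val_lt r, ?_⟩
  rw [← ZMod.intCast_zmod_eq_zero_iff_dvd] <;> try infer_instance
  push_cast
  rw [ZMod.natCast_zmod_val, pow_two, ← hr]
  push_cast
  ring

open Pool.Agent.X3.LinMult in
lemma main {a : ℤ} (ha : a ≠ 0) {F : Type} [Field F] {x : ℕ → F} {N L : ℕ}
    (hx : ∀ n, 1 ≤ n → n ≤ N → ¬ PrimeValue a n → x n = 0) (h : Recurrent x N L)
    (hne : ∃ n, L < n ∧ n ≤ N ∧ x n ≠ 0) : 2 ^ primesOne (4 * a.natAbs) (N / (L + 1)) ≤ L := by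
  classical
  obtain ⟨y, hy⟩ : ∃ y, y = N / (L + 1) := ⟨_, rfl⟩
  rw [← hy]
  obtain ⟨P, hP⟩ : ∃ P : Finset ℕ, P = (Finset.Icc 1 y).filter fun p =>
    p.Prime ∧ p ≡ 1 [MOD 4 * a.natAbs] := ⟨_, rfl⟩
  have hPm : ∀ p ∈ P, p.Prime ∧ p ≡ 1 [MOD 4 * a.natAbs] ∧ p * (L + 1) ≤ N := by
    intro p hp
    rw [hP, Finset.mem_filter, Finset.mem_Icc] at hp
    refine ⟨hp.2.1, hp.2.2, ?_⟩
    calc p * (L + 1) ≤ y * (L + 1) := Nat.mul_le_mul_right _ hp.1.2
      _ ≤ N := by rw [hy]; exact Nat.div_mul_le_self _ _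
  have hroot : ∀ p ∈ P, ∃ u : ℕ, u < p ∧ (p : ℤ) ∣ (u : ℤ) ^ 2 + a := fun p hp =>
    (root ha (hPm p hp).1 (hPm p hp).2.1).2
  choose! u hu1 hu2 using hroot
  have hcop : (P : Set ℕ).Pairwise Nat.Coprime := by
    intro p hp q hq hne
    exact (Nat.coprime_primes (hPm p hp).1 (hPm q hq).1).2 hne
  have h1 := window_one (x := x) (N := N) (L := L) h P (fun p hp => (hPm p hp).1.one_lt.le) hcop
    (fun p => u p + p) (by
    intro p hp
    obtain ⟨hp1, hp2, hp3⟩ := hPm p hp
    have hp0 := hp1.one_lt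
    refine ⟨by omega, fun t ht => ?_⟩
    have h2 := hu1 p hp
    have h3 := hu2 p hp
    have h5 : p * t + p ≤ p * L := by
      have : p * (t + 1) ≤ p * L := Nat.mul_le_mul_left _ ht
      rwa [mul_add, mul_one] at this
    have h6 : u p + p + p * t ≤ N := by
      rw [mul_add, mul_one] at hp3
      omega
    refine ⟨h6, hx _ (by omega) h6 ?_⟩
    obtain ⟨n, hn⟩ : ∃ n, n = u p + p + p * t := ⟨_, rfl⟩
    rw [← hn]
    have hnp : p ≤ n := by omega
    have hd : (p : ℤ) ∣ (n : ℤ) ^ 2 + a := by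
      have e : (n : ℤ) ^ 2 + a = ((u p : ℤ) ^ 2 + a) + p * (2 * u p * (1 + t) + p * (1 + t) ^ 2) := by
        rw [hn]
        push_cast
        ring
      rw [e]
      exact Dvd.dvd.add h3 (Dvd.intro _ rfl)
    have hd' : p ∣ ((n : ℤ) ^ 2 + a).natAbs := Int.natCast_dvd.1 hd
    have hbig : (p : ℤ) < (n : ℤ) ^ 2 + a := by
      have h7 := (root ha hp1 hp2).1
      have h8 : (4 * a.natAbs : ℤ) < p := by exact_mod_cast h7
      have h9 : -(a.natAbs : ℤ) ≤ a := by omega
      have h10 : (p : ℤ) ≤ n := by exact_mod_cast hnp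
      have h11 : (2 : ℤ) ≤ p := by exact_mod_cast hp1.two_le
      nlinarith
    intro hprime
    unfold PrimeValue at hprime
    have h12 := (Nat.prime_dvd_prime_iff_eq hp1 hprime).1 hd'
    omega) hne
  unfold primesOne
  rw [← hP]
  exact h1

/-- (1) Let `a ≠ 0` be an integer and `x` a function with values in a field `F` which vanishes at the
`n ≤ N` such that `|n^2 + a|` is not prime. If `x 1, …, x N` satisfy a linear recurrence of order `L`
over `F` and `x n ≠ 0` for some `n` with `L < n ≤ N`, then `2^m ≤ L`, where `m` is the number of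
primes `p ≤ N/(L+1)` with `p ≡ 1` modulo `4 |a|`.

(2) For every integer `a ≠ 0` there is `c > 0` such that for every function `x` with values in a
field `F` which vanishes at all `n` such that `|n^2 + a|` is not prime: if `N ≥ 16`, `x N ≠ 0` (so
that `|N^2 + a|` is prime) and `x 1, …, x N` satisfy a linear recurrence of order `L` over `F`, then
`L ≥ c N / (log N log log N)`.

(3) For every integer `a ≠ 0` and every field `F`, there are infinitely many `n` such that `|n^2 + a|`
is prime if and only if the linear complexities over `F` of the words formed by the first `N` values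
of their indicator function, `N = 1, 2, …`, are unbounded. -/
theorem result :
    (∀ a : ℤ, a ≠ 0 → ∀ (F : Type) [Field F] (x : ℕ → F) (N L : ℕ),
      (∀ n, 1 ≤ n → n ≤ N → ¬ PrimeValue a n → x n = 0) → Recurrent x N L →
      (∃ n, L < n ∧ n ≤ N ∧ x n ≠ 0) → 2 ^ primesOne (4 * a.natAbs) (N / (L + 1)) ≤ L) ∧
    (∀ a : ℤ, a ≠ 0 → ∃ c : ℝ, 0 < c ∧ ∀ (F : Type) [Field F] (x : ℕ → F),
      (∀ n, 1 ≤ n → ¬ PrimeValue a n → x n = 0) →
      ∀ N L : ℕ, 16 ≤ N → x N ≠ 0 → Recurrent x N L →
      c * (N : ℝ) / (Real.log N * Real.log (Real.log N)) ≤ L) ∧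
    (∀ a : ℤ, a ≠ 0 → ∀ (F : Type) [Field F], {n : ℕ | PrimeValue a n}.Infinite ↔
      ∀ L : ℕ, ∃ N : ℕ, ¬ Recurrent (ind F a) N L) := by
  refine ⟨fun a ha F _ x N L hx h hne => main ha hx h hne, ?_, ?_⟩
  · intro a ha
    have ha1 : 1 ≤ a.natAbs := Int.natAbs_pos.2 ha
    have hφ : 1 ≤ (4 * a.natAbs).totient := Nat.totient_pos.2 (by omega)
    have hφR : (1 : ℝ) ≤ (4 * a.natAbs).totient := by exact_mod_cast hφ
    have hcnt : ∀ᶠ y : ℕ in atTop, (y : ℝ) / ((2 * (4 * a.natAbs).totient : ℝ) * Real.log y) ≤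
        primesOne (4 * a.natAbs) y := by
      have h1 := Pool.Agent.TH915.UC.primes_ap_lower (4 * a.natAbs) 1 (by omega) (Nat.coprime_one_left _)
      have h2 := tendsto_natCast_atTop_atTop (R := ℝ) |>.eventually h1
      filter_upwards [h2] with y hy
      rw [Nat.floor_natCast] at hy
      exact hy
    obtain ⟨c, hc, hnum⟩ := Pool.Agent.X3.LinMult.num_gen (D := 2 * (4 * a.natAbs).totient)
      (by linarith) hcnt
    refine ⟨min c 1, lt_min hc one_pos, ?_⟩
    intro F _ x hx N L hN hxN h
    have hNR : (16 : ℝ) ≤ N := by exact_mod_cast hN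
    have hlog : 2.77 ≤ Real.log N := by
      have h1 : Real.log 16 ≤ Real.log N := Real.log_le_log (by norm_num) hNR
      have h2 : Real.log 16 = 4 * Real.log 2 := by
        rw [show (16 : ℝ) = 2 ^ 4 by norm_num, Real.log_pow]; norm_num
      have := Real.log_two_gt_d9
      linarith
    have hll : 1 ≤ Real.log (Real.log N) := by
      have h1 : Real.log (Real.exp 1) ≤ Real.log (Real.log N) := by
        apply Real.log_le_log (Real.exp_pos _)
        have := Real.exp_one_lt_d9
        linarith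
      rwa [Real.log_exp] at h1
    have hprod : 1 ≤ Real.log N * Real.log (Real.log N) := by nlinarith
    rcases Nat.lt_or_ge L N with hL | hL
    · have h3 := main ha (fun n h1 _ h3 => hx n h1 h3) h ⟨N, hL, le_rfl, hxN⟩
      have hL1 : 1 ≤ L := le_trans Nat.one_le_two_pow h3
      refine le_trans ?_ (hnum N L hN hL1 hL.le h3)
      apply div_le_div_of_nonneg_right _ (by linarith)
      exact mul_le_mul_of_nonneg_right (min_le_left _ _) (by linarith)
    · have hLR : (N : ℝ) ≤ L := by exact_mod_cast hL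
      refine le_trans (div_le_self (by positivity) hprod) ?_
      have : min c 1 * (N : ℝ) ≤ 1 * N := mul_le_mul_of_nonneg_right (min_le_right _ _) (by linarith)
      linarith
  · intro a ha F _
    have ha1 : 1 ≤ a.natAbs := Int.natAbs_pos.2 ha
    constructor
    · intro hinf L
      by_contra hcon
      push Not at hcon
      obtain ⟨t, ht1, ht2⟩ := (Nat.infinite_setOfPred_prime_modEq_one (k := 4 * a.natAbs)
        (by omega)).exists_subset_card_eq (L + 1)
      obtain ⟨N, hN1, hN2⟩ := hinf.exists_gt ((t.sup id) * (L + 1) + L)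
      have h3 := main ha (fun n _ _ h3 => by unfold ind; rw [if_neg h3]) (hcon N)
        ⟨N, by omega, le_rfl, by unfold ind; rw [if_pos (show PrimeValue a N from hN1)]; exact one_ne_zero⟩
      have h4 : t.sup id ≤ N / (L + 1) := by
        rw [Nat.le_div_iff_mul_le (by omega)]
        omega
      have h5 : L + 1 ≤ primesOne (4 * a.natAbs) (N / (L + 1)) := by
        have h8 : t.card ≤ primesOne (4 * a.natAbs) (N / (L + 1)) := by
          unfold primesOne
          apply Finset.card_le_card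
          intro p hp
          have hp' : p.Prime ∧ p ≡ 1 [MOD 4 * a.natAbs] := ht1 hp
          rw [Finset.mem_filter, Finset.mem_Icc]
          have h6 : p ≤ t.sup id := Finset.le_sup (f := id) hp
          exact ⟨⟨hp'.1.one_lt.le, h6.trans h4⟩, hp'.1, hp'.2⟩
        rw [ht2] at h8
        exact h8
      have h6 : 2 ^ (L + 1) ≤ L := (Nat.pow_le_pow_right (by norm_num) h5).trans h3
      have h7 : L + 1 < 2 ^ (L + 1) := Nat.lt_two_pow_self
      omega
    · intro h hfin
      obtain ⟨B, hB⟩ := hfin.bddAbove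
      obtain ⟨N, hN⟩ := h B
      apply hN
      refine ⟨fun _ => 0, fun n h1 _ => ?_⟩
      simp only [zero_mul, Finset.sum_const_zero]
      unfold ind
      rw [if_neg]
      intro hM
      have : n + B ≤ B := hB hM
      omega

end Pool.Agent.Results.MP_484c84_nt.LinearComplexity
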