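import Pool.Agent.X55.Pal.Pal4

set_option autoImplicit false

/-!
# The numbers `n^2+1` for palindromes `n`

A sieve asymptotic for the numbers `n^2+1` without prime factors up to `X`, where `n` runs over the sparse set of the
decimal palindromes with `2 L + 1` digits (there are about `n ^ (1/2)` of them), uniformly for `X ≤ 10 ^ (δ L)`; hence
the right order of magnitude for the number of palindromes `n` for which `n^2+1` has boundedly many prime factors, and
an upper bound of this order for the number of palindromes `n` for which `n^2+1` is prime.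
-/

namespace Pool.Agent.Results.MP_484c84_nt.PalindromicArguments

open Finset Filter

/-- The palindromes with exactly `2 L + 1` decimal digits. -/
def Pal (L : ℕ) : Finset ℕ :=
  (range (10 ^ (2 * L + 1))).filter (fun n => 10 ^ (2 * L) ≤ n ∧ (Nat.digits 10 n).reverse = Nat.digits 10 n)

/-- The number of residue classes `a` modulo `p` for which `p` divides `a^2+1`. -/
def nu (p : ℕ) : ℕ := ((range p).filter (fun a => p ∣ a ^ 2 + 1)).card

/-- The product of `1 - nu p / p` over the primes `p ≤ X` different from `2` and `5`. -/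
noncomputable def V (X : ℝ) : ℝ :=
  ∏ p ∈ (range (⌊X⌋₊ + 1)).filter (fun p => p.Prime ∧ ¬ p ∣ 10), (1 - (nu p : ℝ) / p)

/-- All prime factors of `n^2+1` are larger than `X`. -/
def Rough (X : ℝ) (n : ℕ) : Prop := ∀ p : ℕ, p.Prime → p ∣ n ^ 2 + 1 → X < p

open Classical in
/-- The number of palindromes `n` with `2 L + 1` digits for which all prime factors of `n^2+1` are larger than `X`. -/
noncomputable def roughCount (L : ℕ) (X : ℝ) : ℕ := ((Pal L).filter (fun n => Rough X n)).card

open Classical in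
/-- The number of those for which `n^2+1` has moreover at most `r` prime factors, counted with multiplicity. -/
noncomputable def almostPrimeCount (L r : ℕ) (X : ℝ) : ℕ :=
  ((Pal L).filter (fun n => (n ^ 2 + 1).primeFactorsList.length ≤ r ∧ Rough X n)).card

/-- The number of palindromes `n` with `2 L + 1` digits for which `n^2+1` is prime. -/
def primeCount (L : ℕ) : ℕ := ((Pal L).filter (fun n => (n ^ 2 + 1).Prime)).card

theorem V_eq (X : ℝ) : V X = Pool.Agent.X55.Pal.VV ⌊X⌋₊ := by
  unfold V Pool.Agent.X55.Pal.VV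
  have h : (range (⌊X⌋₊ + 1)).filter (fun p => p.Prime ∧ ¬ p ∣ 10) =
      (Pool.Agent.H373R2.T7.pz ⌊X⌋₊).filter (fun p => ¬ p ∣ 10) := by
    ext p
    rw [mem_filter, mem_filter, Pool.Agent.H373R2.T7.mem_pz, mem_range]
    constructor
    · rintro ⟨h1, h2, h3⟩; exact ⟨⟨by omega, h2⟩, h3⟩
    · rintro ⟨⟨h1, h2⟩, h3⟩; exact ⟨by omega, h2, h3⟩
  rw [h]
  rfl

theorem rough_eq (L : ℕ) {X : ℝ} (hX : 0 ≤ X) : roughCount L X = Pool.Agent.X55.Pal.cnt2 L ⌊X⌋₊ := by
  classical
  unfold roughCount Pool.Agent.X55.Pal.cnt2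
  congr 1
  have h : Pal L = Pool.Agent.H861R2.Pal.palin L := rfl
  rw [h]
  apply filter_congr
  intro n _
  constructor
  · intro h1 p hp hpX hd
    have h2 := h1 p hp hd
    have h3 := (Nat.le_floor_iff hX).1 hpX
    linarith
  · intro h1 p hp hd
    by_contra hcon
    exact h1 p hp ((Nat.le_floor_iff hX).2 (not_lt.1 hcon)) hd

/-- (1) For every `ε > 0` there is `δ > 0` such that for all large `L` and all `5 ≤ X ≤ 10 ^ (δ L)` the number of
palindromes `n` with `2 L + 1` digits for which `n^2+1` has no prime factor up to `X` is `2 * 10 ^ L * V X`, with a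
relative error of at most `ε`. (`2 * 10 ^ L` is the number of the palindromes with last digit `4` or `6`; the others
make `n^2+1` divisible by `2` or `5`.)
(2) There are `r` and `c, C > 0` such that for all large `L` at least `c * 10 ^ L / L` of the palindromes `n` with
`2 L + 1` digits are such that `n^2+1` has at most `r` prime factors, all of them larger than `10 ^ (L / r)`; at most
`C * 10 ^ L / L` of them are such that all prime factors of `n^2+1` are larger than `10 ^ (L / r)`; and at most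
`C * 10 ^ L / L` of them are such that `n^2+1` is prime. -/
theorem result :
    (∀ ε : ℝ, 0 < ε → ∃ δ : ℝ, 0 < δ ∧ ∀ᶠ L : ℕ in atTop, ∀ X : ℝ, 5 ≤ X → X ≤ (10 : ℝ) ^ (δ * L) →
      |(roughCount L X : ℝ) - 2 * 10 ^ L * V X| ≤ ε * (2 * 10 ^ L * V X)) ∧
    (∃ (r : ℕ) (c C : ℝ), 1 ≤ r ∧ 0 < c ∧ 0 < C ∧ ∀ᶠ L : ℕ in atTop,
      c * 10 ^ L / L ≤ almostPrimeCount L r ((10 : ℝ) ^ ((L : ℝ) / r)) ∧
      (roughCount L ((10 : ℝ) ^ ((L : ℝ) / r)) : ℝ) ≤ C * 10 ^ L / L ∧
      (primeCount L : ℝ) ≤ C * 10 ^ L / L) := by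
  classical
  refine ⟨fun ε hε => ?_, ?_⟩
  · obtain ⟨K, hK, h⟩ := Pool.Agent.X55.Pal.main_asym ε hε
    have hKr : (1 : ℝ) ≤ K := by exact_mod_cast hK
    refine ⟨1 / K, by positivity, ?_⟩
    filter_upwards [h] with L hL X hX5 hXL
    have h1 : 5 ≤ ⌊X⌋₊ := Nat.le_floor (by exact_mod_cast hX5)
    have h2 : ⌊X⌋₊ ^ K ≤ 10 ^ L := by
      have h3 : ((⌊X⌋₊ : ℕ) : ℝ) ^ K ≤ 10 ^ L := by
        calc ((⌊X⌋₊ : ℕ) : ℝ) ^ K ≤ X ^ K :=
              pow_le_pow_left₀ (Nat.cast_nonneg _) (Nat.floor_le (by linarith)) K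
          _ ≤ ((10 : ℝ) ^ (1 / K * (L : ℝ))) ^ K := pow_le_pow_left₀ (by linarith) hXL K
          _ = 10 ^ L := by
              rw [← Real.rpow_natCast, ← Real.rpow_mul (by norm_num), ← Real.rpow_natCast]
              congr 1
              field_simp
      exact_mod_cast h3
    have h4 := hL ⌊X⌋₊ h1 h2
    rw [rough_eq L (by linarith : (0 : ℝ) ≤ X), V_eq, mul_assoc]
    exact h4
  · obtain ⟨r, c, C, hr, hc, hC, h⟩ := Pool.Agent.X55.Pal.main_bounds
    refine ⟨r, c, C, hr, hc, hC, ?_⟩
    filter_upwards [h, eventually_ge_atTop 1] with L hL hL1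
    have hP : Pal L = Pool.Agent.H861R2.Pal.palin L := rfl
    have hrr : (1 : ℝ) ≤ r := by exact_mod_cast hr
    have hLr : (1 : ℝ) ≤ L := by exact_mod_cast hL1
    have hrc : (roughCount L ((10 : ℝ) ^ ((L : ℝ) / r)) : ℝ) ≤ C * 10 ^ L / L := hL.2
    refine ⟨hL.1, hrc, le_trans ?_ hrc⟩
    have h1 : primeCount L ≤ roughCount L ((10 : ℝ) ^ ((L : ℝ) / r)) := by
      unfold primeCount roughCount
      apply card_le_card
      intro n hn
      rw [mem_filter] at hn ⊢
      refine ⟨hn.1, fun p hp hd => ?_⟩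
      have h2 : p = n ^ 2 + 1 := (Nat.prime_dvd_prime_iff_eq hp hn.2).1 hd
      have h3 : 10 ^ (2 * L) ≤ n := by
        have h4 := hn.1
        unfold Pal at h4
        rw [mem_filter] at h4
        exact h4.2.1
      have h5 : (10 : ℝ) ^ (2 * L) ≤ n := by exact_mod_cast h3
      have h6 : (10 : ℝ) ^ ((L : ℝ) / r) ≤ (10 : ℝ) ^ (2 * L) := by
        rw [← Real.rpow_natCast]
        apply Real.rpow_le_rpow_of_exponent_le (by norm_num)
        rw [div_le_iff₀ (by linarith)]
        push_cast
        nlinarith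
      have h7 : (1 : ℝ) ≤ n := by
        refine le_trans ?_ h5
        exact one_le_pow₀ (by norm_num)
      rw [h2]
      push_cast
      nlinarith
    exact_mod_cast h1

end Pool.Agent.Results.MP_484c84_nt.PalindromicArguments
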