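import Pool.Agent.X50.LSv.Four

/-!
# Sumsets contained in the set of the integers `n` for which `n^2+1` is prime

For every `k ≥ 2` there is `C` with the following property. Let `A_1, …, A_k` be sets of integers,
each in an interval of length `N` (anywhere), such that `(a_1 + … + a_k)^2 + 1` is prime for all
`a_i ∈ A_i`. Then `|A_1| ⋯ |A_k| ≤ C N^(k/2) (log N)^(k (3 - k) / 2)`.

For instance `|A| |B| ≤ C N log N` if `(a + b)^2 + 1` is always prime, `|A| |B| |C| ≤ C N^(3/2)` for
three summands; and `|A| ≤ C √N (log N)^((3 - k) / 2)` if all `k`-fold sums of elements of `A` lie in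
the set.

Proof. For a prime `p ≡ 1 (mod 4)`, `p ≤ √N`, the set of the sums modulo `p` avoids the two square
roots of `-1`; by the theorem of Cauchy and Davenport the numbers `α_i(p)` of the residues of the
`A_i` satisfy `∑ α_i(p) ≤ p + k - 3`, and hence
`∏ (p - α_i(p)) / α_i(p) ≥ ((k - 1) (1 - 2 k^4 / p))^k`. The arithmetic large sieve (with an arbitrary
set of moduli) is applied to each `A_i`, and Hölder's inequality bounds the product of the `k` sums
over the moduli from below by the `k`-th power of `∑_{q ≤ √N} (k - 1)^ω(q) ∏ (1 - 2 k^4 / p)` over the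
`q` composed of primes `1` modulo `4`, which has the order `√N (log N)^((k - 1) / 2 - 1)`.
-/

set_option autoImplicit false
set_option maxHeartbeats 4000000
open Finset

namespace Pool.Agent.Results.MP_484c84_nt.SumsetsInQuadraticPrimes

open Pool.Agent.X50.SQ

/-- all sums of one element of each of the sets belong to the set of the `n` with `n^2+1` prime -/
def SumsGood {k : ℕ} (A : Fin k → Finset ℕ) : Prop :=
  ∀ a : Fin k → ℕ, (∀ i, a i ∈ A i) → ((∑ i, a i) ^ 2 + 1).Prime

/-- balance of the residues -/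
theorem residues {k : ℕ} (hk : 2 ≤ k) (A : Fin k → Finset ℕ) (Q : ℕ) (hA : SumsGood A)
    (hne : ∀ i, (A i).Nonempty) (hlarge : ∃ i, ∀ n ∈ A i, Q < n ^ 2) (p : ℕ) (hpQ : p ≤ Q)
    (hp2 : 2 < p) (hp : p.Prime) (h4 : p % 4 = 1) : (∑ i, (res (A i) p).card : ℕ) + 2 ≤ p + k := by
  classical
  haveI : Fact p.Prime := ⟨hp⟩
  haveI : NeZero p := ⟨hp.ne_zero⟩
  obtain ⟨x, hx⟩ := exists_root hp h4
  have hT : ∀ y ∈ tot (fun i => res (A i) p), y ^ 2 ≠ -1 := by
    intro y hy hy2
    unfold tot at hy
    rw [mem_image] at hy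
    obtain ⟨f, hf, rfl⟩ := hy
    rw [Fintype.mem_piFinset] at hf
    have hch : ∀ i, ∃ n ∈ A i, (n : ZMod p) = f i := by
      intro i
      have := hf i
      unfold res at this
      rwa [mem_image] at this
    choose a ha hfa using hch
    have hpr := hA a ha
    have hdvd : p ∣ (∑ i, a i) ^ 2 + 1 := by
      rw [← ZMod.natCast_eq_zero_iff]
      push_cast
      simp only [hfa]
      rw [hy2]
      ring
    have heq := (Nat.prime_dvd_prime_iff_eq hp hpr).mp hdvd
    obtain ⟨i, hi⟩ := hlarge
    have h1 := hi (a i) (ha i)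
    have h2 : a i ≤ ∑ j, a j := single_le_sum (fun j _ => Nat.zero_le _) (mem_univ i)
    have h3 : (a i) ^ 2 ≤ (∑ j, a j) ^ 2 := Nat.pow_le_pow_left h2 2
    omega
  have hcard : (tot (fun i => res (A i) p)).card ≤ p - 2 := by
    have h1 : tot (fun i => res (A i) p) ⊆ (univ.erase x).erase (-x) := by
      intro y hy
      have := hT y hy
      rw [mem_erase, mem_erase]
      refine ⟨fun h => this ?_, fun h => this ?_, mem_univ _⟩
      · rw [h, neg_sq, hx]
      · rw [h, hx]
    have hxx : -x ≠ x := by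
      intro h
      have h2 : (2 : ZMod p) * x = 0 := by
        have : x + x = 0 := by
          nth_rewrite 1 [← h]
          ring
        rw [two_mul]
        exact this
      rcases mul_eq_zero.mp h2 with h3 | h3
      · have : ((2 : ℕ) : ZMod p) = 0 := by exact_mod_cast h3
        rw [ZMod.natCast_eq_zero_iff] at this
        have := Nat.le_of_dvd (by norm_num) this
        omega
      · rw [h3] at hx
        have : (1 : ZMod p) = 0 := by
          have h5 : (0 : ZMod p) ^ 2 = 0 := by ring
          rw [h5] at hx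
          rw [← neg_neg (1 : ZMod p), ← hx, neg_zero]
        exact one_ne_zero this
    have h2 := card_le_card h1
    rw [card_erase_of_mem (mem_erase.mpr ⟨hxx, mem_univ _⟩), card_erase_of_mem (mem_univ _),
      card_univ, ZMod.card] at h2
    omega
  have hcd := cd hp (fun i => res (A i) p) (fun i => res_nonempty (hne i) p)
  omega

/-- For `k ≥ 2` there are `C > 0` and `N₀` such that for `N ≥ N₀` and finite sets
`A 0, …, A (k - 1)` of natural numbers, `A i` contained in the interval `(U i, U i + N]`, for which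
`(a 0 + … + a (k - 1))^2 + 1` is prime for all `a i ∈ A i`, the product of the numbers of elements of
the sets is at most `C N^(k/2) (log N)^(k (3 - k) / 2)`. -/
theorem result (k : ℕ) (hk : 2 ≤ k) : ∃ (C : ℝ) (N₀ : ℕ), 0 < C ∧ ∀ N : ℕ, N₀ ≤ N →
    ∀ (U : Fin k → ℕ) (A : Fin k → Finset ℕ), (∀ i, A i ⊆ Finset.Ioc (U i) (U i + N)) →
    (∀ a : Fin k → ℕ, (∀ i, a i ∈ A i) → ((∑ i, a i) ^ 2 + 1).Prime) →
    ∏ i, ((A i).card : ℝ) ≤
      C * (N : ℝ) ^ ((k : ℝ) / 2) * (Real.log N) ^ ((k : ℝ) * (3 - (k : ℝ)) / 2) := by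
  obtain ⟨C, N₀, hC, h⟩ := reduce (by norm_num : (0 : ℝ) ≤ 1 / 2) dens_four k hk
    (fun A => SumsGood A) (fun A A' hsub hA a ha => hA a fun i => hsub i (ha i))
    (fun A Q hA hne hl p hpQ hp2 hp h4 => residues hk A Q hA hne hl p hpQ hp2 hp h4)
  refine ⟨C, N₀, hC, fun N hN U A hA hG => ?_⟩
  have h1 := h N hN U A hA hG
  have h2 : (k : ℝ) * (1 - ((k : ℝ) - 1) * (1 / 2)) = (k : ℝ) * (3 - (k : ℝ)) / 2 := by ring
  rwa [h2] at h1

end Pool.Agent.Results.MP_484c84_nt.SumsetsInQuadraticPrimes
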